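import Mathlib
import Pool.Agent.Lib.MP_6ed562_lc.Kunen

/-!
The Rudin-Keisler order and the Comfort order on the ultrafilters on `ℕ` are not isomorphic:
the Comfort order has binary joins, the Rudin-Keisler order does not.
-/

namespace Pool.Agent.Results.MP_6ed562_lc.NotIsomorphic

open Filter Set Topology

universe w

/-- The Rudin-Keisler preorder: `u` is the image of `v` under some map `ℕ → ℕ`. -/
def RKle (u v : Ultrafilter ℕ) : Prop := ∃ f : ℕ → ℕ, Ultrafilter.map f v = u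

/-- `X` is `u`-compact: every sequence in `X` has a `u`-limit. -/
def UCompact (u : Ultrafilter ℕ) (X : Type w) [TopologicalSpace X] : Prop :=
  ∀ x : ℕ → X, ∃ a : X, ∀ U ∈ 𝓝 a, {n | x n ∈ U} ∈ u

/-- The Comfort preorder: every `v`-compact Tychonoff space is `u`-compact. -/
def Cle (u v : Ultrafilter ℕ) : Prop :=
  ∀ (X : Type w) [TopologicalSpace X] [T35Space X], UCompact v X → UCompact u X

/-- The classes of the equivalence `u ≤ v ∧ v ≤ u` of a relation `le`. -/
abbrev Classes (le : Ultrafilter ℕ → Ultrafilter ℕ → Prop) : Type :=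
  Quot fun u v => le u v ∧ le v u

/-- The order induced by `le` on its classes. -/
def ClassLe (le : Ultrafilter ℕ → Ultrafilter ℕ → Prop) (a b : Classes le) : Prop :=
  ∃ u v, a = Quot.mk _ u ∧ b = Quot.mk _ v ∧ le u v

lemma classLe_mk {le : Ultrafilter ℕ → Ultrafilter ℕ → Prop} (hr : ∀ u, le u u)
    (ht : ∀ u v x, le u v → le v x → le u x) (u v : Ultrafilter ℕ) :
    ClassLe le (Quot.mk _ u) (Quot.mk _ v) ↔ le u v := by
  have he : Equivalence fun u v => le u v ∧ le v u :=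
    ⟨fun u => ⟨hr u, hr u⟩, fun h => ⟨h.2, h.1⟩,
      fun h h' => ⟨ht _ _ _ h.1 h'.1, ht _ _ _ h'.2 h.2⟩⟩
  constructor
  · rintro ⟨u', v', h1, h2, h⟩
    have e1 := he.eqvGen_iff.1 (Quot.eqvGen_exact h1)
    have e2 := he.eqvGen_iff.1 (Quot.eqvGen_exact h2)
    exact ht _ _ _ e1.1 (ht _ _ _ h e2.2)
  · exact fun h => ⟨u, v, rfl, rfl, h⟩

lemma RKle.refl (u : Ultrafilter ℕ) : RKle u u := ⟨id, Ultrafilter.map_id u⟩

lemma RKle.trans (u v x : Ultrafilter ℕ) (h : RKle u v) (h' : RKle v x) : RKle u x := by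
  obtain ⟨f, rfl⟩ := h
  obtain ⟨g, rfl⟩ := h'
  exact ⟨f ∘ g, (Ultrafilter.map_map _ _ _).symm⟩

lemma Cle.refl (u : Ultrafilter ℕ) : Cle.{w} u u := fun _ _ _ h => h

lemma Cle.trans (u v x : Ultrafilter ℕ) (h : Cle.{w} u v) (h' : Cle.{w} v x) : Cle.{w} u x :=
  fun X _ _ hx => h X (h' X hx)

lemma RKle.cle {u v : Ultrafilter ℕ} (h : RKle u v) : Cle.{w} u v := by
  obtain ⟨f, rfl⟩ := h
  intro X _ _ hv x
  obtain ⟨a, ha⟩ := hv (x ∘ f)
  exact ⟨a, fun U hU => Ultrafilter.mem_map.2 (ha U hU)⟩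

/-- The tensor product of two ultrafilters, coded on `ℕ`. -/
noncomputable def tens (u v : Ultrafilter ℕ) : Ultrafilter ℕ :=
  u.bind fun n => v.map (Nat.pair n)

lemma mem_tens {u v : Ultrafilter ℕ} {A : Set ℕ} :
    A ∈ tens u v ↔ {n | {m | Nat.pair n m ∈ A} ∈ v} ∈ u := Iff.rfl

lemma le_tens_left (u v : Ultrafilter ℕ) : RKle u (tens u v) := by
  refine ⟨fun k => (Nat.unpair k).1, Ultrafilter.eq_of_le fun A hA => ?_⟩
  refine mem_tens.2 (mem_of_superset hA fun n hn => ?_)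
  refine mem_of_superset univ_mem fun m _ => ?_
  simpa using hn

lemma le_tens_right (u v : Ultrafilter ℕ) : RKle v (tens u v) := by
  refine ⟨fun k => (Nat.unpair k).2, Ultrafilter.eq_of_le fun A hA => ?_⟩
  refine mem_tens.2 (mem_of_superset univ_mem fun n _ => ?_)
  refine mem_of_superset hA fun m hm => ?_
  simpa using hm

lemma tens_cle {u v x : Ultrafilter ℕ} (hu : Cle.{w} u x) (hv : Cle.{w} v x) :
    Cle.{w} (tens u v) x := by
  intro X _ _ hx s
  choose y hy using fun n => hv X hx fun m => s (Nat.pair n m)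
  obtain ⟨a, ha⟩ := hu X hx y
  refine ⟨a, fun U hU => mem_tens.2 ?_⟩
  refine mem_of_superset (ha _ (interior_mem_nhds.2 hU)) fun n hn => ?_
  exact hy n U (mem_interior_iff_mem_nhds.1 hn)

lemma no_join_aux {u v x : Ultrafilter ℕ} (hv : (v : Filter ℕ) ≤ cofinite)
    (h1 : ∀ f : ℕ → ℕ → ℕ, (∀ n, ((v.map (f n) : Ultrafilter ℕ) : Filter ℕ) ≤ cofinite) →
      ∃ A ∈ u, ∀ n, A ∉ v.map (f n))
    (h2 : ∀ f : ℕ → ℕ → ℕ, (∀ n, ((u.map (f n) : Ultrafilter ℕ) : Filter ℕ) ≤ cofinite) →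
      ∃ A ∈ v, ∀ n, A ∉ u.map (f n))
    {g h : ℕ → ℕ} (hg : x.map g = u) (hh : x.map h = v) (hle : {k | h k ≤ g k} ∈ x)
    (hx : RKle x (tens u v)) : False := by
  classical
  obtain ⟨φ, hφ⟩ := hx
  let a : ℕ → ℕ → ℕ := fun n m => g (φ (Nat.pair n m))
  let b : ℕ → ℕ → ℕ := fun n m => h (φ (Nat.pair n m))
  have ha : ∀ A ∈ u, {n | A ∈ v.map (a n)} ∈ u := by
    intro A hA
    rw [← hg, ← hφ] at hA
    exact hA
  have hb : ∀ A ∈ v, {n | A ∈ v.map (b n)} ∈ u := by
    intro A hA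
    have hA' : A ∈ ((tens u v).map φ).map h := by rw [hφ, hh]; exact hA
    exact hA'
  have hab : {n | {m | b n m ≤ a n m} ∈ v} ∈ u := by
    rw [← hφ] at hle
    exact hle
  rcases Ultrafilter.em u (fun n => ((v.map (a n) : Ultrafilter ℕ) : Filter ℕ) ≤ cofinite)
    with hS | hS
  · obtain ⟨A, hA, hA'⟩ := h1
      (fun n => if ((v.map (a n) : Ultrafilter ℕ) : Filter ℕ) ≤ cofinite then a n else id) (by
        intro n
        split_ifs with hn
        · exact hn
        · simpa using hv)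
    obtain ⟨n, hn1, hn2⟩ := (hS.and (ha A hA)).exists
    have := hA' n
    rw [if_pos hn1] at this
    exact this hn2
  · have key : ∀ n, ∃ k, ¬ (((v.map (a n) : Ultrafilter ℕ) : Filter ℕ) ≤ cofinite) →
        {m | b n m ≤ a n m} ∈ v → v.map (b n) = pure k := by
      intro n
      by_cases hn : ((v.map (a n) : Ultrafilter ℕ) : Filter ℕ) ≤ cofinite
      · exact ⟨0, fun h => absurd hn h⟩
      by_cases hn' : {m | b n m ≤ a n m} ∈ v
      swap
      · exact ⟨0, fun _ h => absurd h hn'⟩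
      obtain ⟨c, hc⟩ := ((v.map (a n)).le_cofinite_or_eq_pure).resolve_left hn
      have h3 : {m | a n m = c} ∈ v := by
        have : ({c} : Set ℕ) ∈ v.map (a n) := by rw [hc]; simp
        exact this
      have h4 : Set.Iic c ∈ v.map (b n) := by
        refine Ultrafilter.mem_map.2 (mem_of_superset (f := (v : Filter ℕ)) (inter_mem hn' h3) ?_)
        rintro m ⟨hm1, hm2⟩
        exact le_of_le_of_eq hm1 hm2
      obtain ⟨k, _, hk⟩ := Ultrafilter.eq_pure_of_finite_mem (Set.finite_Iic c) h4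
      exact ⟨k, fun _ _ => hk⟩
    choose k hk using key
    have hkv : u.map k = v := by
      refine (Ultrafilter.eq_of_le ?_)
      intro A hA
      refine Ultrafilter.mem_map.2 (mem_of_superset (f := (u : Filter ℕ))
        (inter_mem (inter_mem hS hab) (hb A hA)) ?_)
      rintro n ⟨⟨hn1, hn2⟩, hn3⟩
      have := hk n hn1 hn2
      simp only [mem_ofPred_eq] at hn3
      rw [this] at hn3
      exact hn3
    obtain ⟨A, hA, hA'⟩ := h2 (fun _ => k) (fun _ => by rw [hkv]; exact hv)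
    have := hA' 0
    rw [hkv] at this
    exact this hA

theorem result :
    ¬ ∃ Φ : Classes RKle → Classes Cle.{w}, Function.Bijective Φ ∧
      ∀ a b, ClassLe RKle a b ↔ ClassLe Cle.{w} (Φ a) (Φ b) := by
  rintro ⟨Φ, hΦ, hiso⟩
  obtain ⟨u, v, hu, hv, h1, h2⟩ := Pool.Agent.Lib.MP_6ed562_lc.exists_pair
  have hR := classLe_mk RKle.refl RKle.trans
  have hC := classLe_mk Cle.refl.{w} Cle.trans.{w}
  obtain ⟨u', hu'⟩ := Quot.exists_rep (Φ (Quot.mk _ u))
  obtain ⟨v', hv'⟩ := Quot.exists_rep (Φ (Quot.mk _ v))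
  obtain ⟨c, hc⟩ := hΦ.2 (Quot.mk _ (tens u' v'))
  obtain ⟨x, rfl⟩ := Quot.exists_rep c
  have hux : RKle u x := by
    rw [← hR, hiso, ← hu', hc, hC]
    exact (le_tens_left u' v').cle
  have hvx : RKle v x := by
    rw [← hR, hiso, ← hv', hc, hC]
    exact (le_tens_right u' v').cle
  have hjoin : ∀ y, RKle u y → RKle v y → RKle x y := by
    intro y hy1 hy2
    obtain ⟨y', hy'⟩ := Quot.exists_rep (Φ (Quot.mk _ y))
    rw [← hR, hiso, ← hu', ← hy', hC] at hy1
    rw [← hR, hiso, ← hv', ← hy', hC] at hy2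
    rw [← hR, hiso, hc, ← hy', hC]
    exact tens_cle hy1 hy2
  obtain ⟨g, hg⟩ := hux
  obtain ⟨h, hh⟩ := hvx
  rcases Ultrafilter.em x (fun k => h k ≤ g k) with hle | hle
  · exact no_join_aux hv h1 h2 hg hh hle (hjoin _ (le_tens_left u v) (le_tens_right u v))
  · refine no_join_aux hu h2 h1 hh hg ?_ (hjoin _ (le_tens_right v u) (le_tens_left v u))
    exact mem_of_superset hle fun k hk => (not_le.1 hk).le

end Pool.Agent.Results.MP_6ed562_lc.NotIsomorphic
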